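import Pool.Agent.H.MP_9682d1_al.B

set_option autoImplicit false

namespace Pool.Agent.Results.MP_9682d1_al.Five

open Subgroup Pool.Agent.H.MP_b39e30_al Pool.Agent.H.MP_9682d1_al

/-- `a` is a right `k`-Engel element: `[a, x, …, x] = 1` (`k` copies of `x`) for every `x`,
where `[b, x] = b⁻¹ * (x⁻¹ * b * x)`. -/
def RightEngel {G : Type} [Group G] (k : ℕ) (a : G) : Prop :=
  ∀ x : G, (fun b => b⁻¹ * (x⁻¹ * b * x))^[k] a = 1

/-- The Baer radical: the subgroup generated by all subnormal cyclic subgroups. -/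
def baer (G : Type) [Group G] : Subgroup G :=
  ⨆ g : G, ⨆ _ : (zpowers g).IsSubnormal, zpowers g

theorem result : ∃ (G : Type) (_ : Group G) (a : G), RightEngel 5 a ∧ a ∉ baer G := by
  refine ⟨GO II, inferInstance, ⟨sx E, sx_mem II⟩, fun g => engel two sq g, fun h => ?_⟩
  have hb : baer (GO II) ≤ (KJ II).comap (GO II).subtype := by
    refine iSup_le fun g => iSup_le fun hg => zpowers_le.2 ?_
    rcases g.2.2 with h | h
    · exact h
    · obtain ⟨m, hm⟩ := Pool.Agent.H.MP_9682d1_al.nonsub two sq h hg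
      exact absurd hm (not_nil m)
  have h1 : (1 : E) = 0 := by simpa [sx, X] using sq _ (mem_K.1 (hb h) 0 1)
  exact not_nil 1 (eq_bot_iff.2 fun a _ => by rw [← mul_one a, h1, mul_zero]; exact zero_mem _)

end Pool.Agent.Results.MP_9682d1_al.Five
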